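import Mathlib
import Pool.Agent.Helper10.CritPer.Main

/-!
The exact number of critical periods of the centres `x' = a y`,
`y' = b x^(2l+1) + c x^(2l-1) y^2`; for `l = 1` these are all the centres of the family
`x' = P_1`, `y' = Q_3`, so that `N(0,1) = N(1,0) = 1`.
-/

namespace Pool.Agent.Results.MP_914726_an.ExactZeroOne

open Pool.Agent.Helper10.CritPer

theorem result :
    N 0 1 = 1 ∧ N 1 0 = 1 ∧
    (∀ a b : ℕ → ℝ,
      IsCenter (field 0 1 a b) ↔ a 0 = 0 ∧ a 1 * b 0 < 0 ∧ b 1 = 0 ∧ b 3 = 0) ∧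
    ∀ l : ℕ, 1 ≤ l → ∀ a b : ℕ → ℝ, a 0 = 0 → a 1 * b 0 < 0 →
      (∀ j, j ≤ 2 * l + 1 → j ≠ 0 → j ≠ 2 → b j = 0) →
      IsCenter (field 0 l a b) ∧
        (critOrbits (field 0 l a b)).encard = if 0 < a 1 * b 2 then 1 else 0 :=
  main

end Pool.Agent.Results.MP_914726_an.ExactZeroOne
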