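import Pool.Agent.CritPer.H.Fin
import Pool.Agent.CritPer.H.ShE
import Pool.Agent.CritPer.H.ZerB
import Pool.Agent.CritPer.H.Rev

/-!
MP_914726_an, case `l = 2k`: among the centers for which `∂P/∂y` does not change sign the maximal
number of critical periods is exactly one.
-/

open Pool.Agent.CritPer

namespace Pool.Agent.Results.MP_914726_an.HalfDegree

/-- The supremum of the number of critical periods over all centers of systems `x' = P(x,y)`,
`y' = Q(x,y)`, `P`, `Q` real homogeneous of degrees `2k+1`, `4k+1`, such that `P(x,y)` is a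
nondecreasing function of `y` for all `x`, or nonincreasing for all `x`. -/
noncomputable def Nmon (k : ℕ) : ℕ∞ :=
  sSup {N | ∃ P Q : MvPolynomial (Fin 2) ℝ, P.IsHomogeneous (2 * k + 1) ∧
    Q.IsHomogeneous (4 * k + 1) ∧ IsCenter (vf P Q) ∧
    ((∀ x : ℝ, Monotone fun y : ℝ => MvPolynomial.eval ![x, y] P) ∨
      ∀ x : ℝ, Antitone fun y : ℝ => MvPolynomial.eval ![x, y] P) ∧
    ∃ (I : Set ℝ) (c : ℝ → ℝ × ℝ), IsParam (vf P Q) I c ∧ N = (critSet (vf P Q) I c).encard}

/-- For `l = 2k`, `k ≥ 1`, the maximal number of critical periods of the centers with `∂P/∂y` of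
constant sign is one. -/
theorem result (k : ℕ) (hk : 1 ≤ k) : Nmon k = 1 := by
  apply le_antisymm
  · refine sSup_le ?_
    rintro N ⟨P, Q, hP, hQ, hc, hm | hm, I, c, hI, rfl⟩
    · exact H.main hk hP hQ (H.px_of_center hk hP hQ hc hm) hm hI
    · rw [← H.rev_critSet]
      have hm' : ∀ x : ℝ, Monotone fun y : ℝ => MvPolynomial.eval ![x, y] (-P) := fun x y y' h => by
        simp only [map_neg]
        exact neg_le_neg (hm x h)
      exact H.main hk hP.neg hQ.neg (H.px_of_center hk hP.neg hQ.neg (H.rev_center hc) hm') hm'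
        (H.rev_param hI)
  · obtain ⟨P, Q, hP, hQ, hc, _, hm, I, c, hI, h1⟩ := H.sharp hk
    exact h1.trans (le_sSup ⟨P, Q, hP, hQ, hc, Or.inl hm, I, c, hI, rfl⟩)

end Pool.Agent.Results.MP_914726_an.HalfDegree
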