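import Pool.Agent.CritPer.M.Final

/-!
MP_914726_an: `N(0,l) ≥ l` for `l ≥ 1`, `N(k,l) ≥ l - 2k - 1` for `l ≥ 3k + 2`, and
`N(k,l) ≥ (max(k,l) - 2)/2` for all `k ≠ l`.
-/

open Pool.Agent.CritPer

namespace Pool.Agent.Results.MP_914726_an.LinearGrowth

theorem half {k l : ℕ} (h : k < l) : ((l : ℕ) : ℕ∞) ≤ 2 * Nkl k l + 2 := by
  have key : ∀ m : ℕ, (m : ℕ∞) ≤ Nkl k l → l ≤ 2 * m + 2 → ((l : ℕ) : ℕ∞) ≤ 2 * Nkl k l + 2 := by
    intro m hm hl
    calc ((l : ℕ) : ℕ∞) ≤ ((2 * m + 2 : ℕ) : ℕ∞) := by exact_mod_cast hl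
      _ = 2 * (m : ℕ∞) + 2 := by push_cast; rfl
      _ ≤ 2 * Nkl k l + 2 := by gcongr
  rcases Nat.eq_zero_or_pos k with hk | hk
  · subst hk
    exact key l (M.zero_case h) (by omega)
  · by_cases hl : 4 * k + 1 ≤ l
    · have h1 := M.gen_case (k := k) (n := l - k) hk (by omega)
      have e : k + (l - k) = l := by omega
      rw [e] at h1
      exact key _ h1 (by omega)
    · exact key _ (lower h) (by omega)

/-- Linear growth of the maximal number `N(k,l)` of critical periods. -/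
theorem result : (∀ l : ℕ, 1 ≤ l → (l : ℕ∞) ≤ Nkl 0 l) ∧
    (∀ k l : ℕ, 3 * k + 2 ≤ l → ((l - 2 * k - 1 : ℕ) : ℕ∞) ≤ Nkl k l) ∧
    ∀ k l : ℕ, k ≠ l → ((max k l : ℕ) : ℕ∞) ≤ 2 * Nkl k l + 2 := by
  refine ⟨fun l hl => M.zero_case hl, fun k l hl => ?_, fun k l h => ?_⟩
  · rcases Nat.eq_zero_or_pos k with hk | hk
    · subst hk
      refine le_trans ?_ (M.zero_case (n := l) (by omega))
      exact_mod_cast (by omega : l - 2 * 0 - 1 ≤ l)
    · have h1 := M.gen_case (k := k) (n := l - k) hk (by omega)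
      have e : k + (l - k) = l := by omega
      rw [e] at h1
      refine le_trans ?_ h1
      exact_mod_cast (by omega : l - 2 * k - 1 ≤ l - k - k - 1)
  · rcases lt_or_gt_of_ne h with h1 | h1
    · rw [max_eq_right h1.le]
      exact half h1
    · rw [max_eq_left h1.le, Nkl_comm]
      exact half h1

end Pool.Agent.Results.MP_914726_an.LinearGrowth
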