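import Pool.Agent.CritPer.Lower
import Pool.Agent.CritPer.Sym

/-!
MP_914726_an: `N(k,l) ≥ max(1, 2 min(k,l) - 1)` for all `k ≠ l`.
-/

open Pool.Agent.CritPer

namespace Pool.Agent.Results.MP_914726_an.LinearLowerBound

/-- For all `k ≠ l` the maximal number `N(k,l)` of critical periods is at least
`max(1, 2 min(k,l) - 1)`. -/
theorem result (k l : ℕ) (h : k ≠ l) :
    ((max 1 (2 * min k l - 1) : ℕ) : ℕ∞) ≤ Nkl k l := by
  rcases lt_or_gt_of_ne h with h1 | h1
  · rw [min_eq_left h1.le]
    exact lower h1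
  · rw [min_eq_right h1.le, Nkl_comm]
    exact lower h1

end Pool.Agent.Results.MP_914726_an.LinearLowerBound
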